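import Pool.Agent.H560TT.Gadget

/-!
Connected EF1 (outer) allocations for many agents on non-traceable graphs: a clique together with
a matching of all other vertices into it.
-/

set_option autoImplicit false

namespace Pool.Agent.Results.MP_7d34d8_co.CliqueMatching

open Finset Pool.Agent.V11103.EF Pool.Agent.H560TT

/-- (1) If `G` has a clique `K` and its other vertices can be matched into `K`, then every profile
of at least `|K|` monotone valuations has a connected EF1 (outer) allocation. (2) Graphs with three
tight gadgets are not traceable. (3) The gadget graphs are connected and not traceable, they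
satisfy the guarantee for all `n ≥ s 0 + s 1 + s 2`, and if some gadget has size one they fail it
for `n = s 0 + s 1 + s 2 - 1`. -/
theorem result :
    (∀ (V : Type) [Fintype V] [DecidableEq V] (G : SimpleGraph V) (K : Finset V) (m : V → V),
      (∀ a ∈ K, ∀ b ∈ K, a ≠ b → G.Adj a b) → (∀ x, x ∉ K → m x ∈ K ∧ G.Adj x (m x)) →
      (∀ x y, x ∉ K → y ∉ K → m x = m y → x = y) →
      ∀ n : ℕ, K.card ≤ n → GuaranteesMonotone G n) ∧
    (∀ (V : Type) [DecidableEq V] (G : SimpleGraph V) (s : Fin 3 → ℕ), (∀ k, 1 ≤ s k) →
      TightTriple G s → ¬ Traceable G) ∧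
    ∀ s : Fin 3 → ℕ, (∀ k, 1 ≤ s k) →
      (gadgetGraph s).Connected ∧ ¬ Traceable (gadgetGraph s) ∧
        (∀ n, s 0 + s 1 + s 2 ≤ n → GuaranteesMonotone (gadgetGraph s) n) ∧
        ((∃ k, s k = 1) → ¬ GuaranteesMonotone (gadgetGraph s) (s 0 + s 1 + s 2 - 1)) := by
  refine ⟨fun V _ _ G K m h1 h2 h3 n hn v _ mono => Large.main h1 h2 h3 hn v mono,
    fun V _ G s hs h => not_traceable_of_tight hs h,
    fun s hs => ⟨gadget_connected hs, not_traceable_of_tight hs (gadget_tight s),
      fun n hn => gadget_guarantees s hn, ?_⟩⟩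
  rintro ⟨k, hk⟩
  exact gadget_fails hs hk

end Pool.Agent.Results.MP_7d34d8_co.CliqueMatching
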