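import Pool.Agent.H560CM.Final

/-!
A non-traceable graph which universally guarantees connected EF1 (outer) allocations for all
common monotone profiles.
-/

set_option autoImplicit false

namespace Pool.Agent.Results.MP_7d34d8_co.CommonMonotone

open Pool.Agent.V11103.EF Pool.Agent.H560CM

/-- The ten-vertex graph `exGraph` is connected and not traceable, and it universally guarantees
connected EF1 (outer) allocations for all profiles in which the agents have a common monotone
valuation. -/
theorem result :
    exGraph.Connected ∧ ¬ Traceable exGraph ∧ UniversallyGuaranteesCommon exGraph :=
  ⟨exGraph_connected, exGraph_not_traceable, exGraph_common⟩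

end Pool.Agent.Results.MP_7d34d8_co.CommonMonotone
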