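import Pool.Agent.H560TT.Main

/-!
Graphs with three tight gadgets one of which has size one never guarantee connected EF1
allocations for two kinds of additive agents; this includes the ten-vertex graph `exGraph`.
-/

set_option autoImplicit false

namespace Pool.Agent.Results.MP_7d34d8_co.TightTriples

open Finset Pool.Agent.V11103.EF Pool.Agent.H560TT

/-- the outer vertices of `exGraph` -/
def exD (p : (k : Fin 3) × Fin (![1, 2, 2] k)) : Fin 10 :=
  ![![0, 0], ![1, 2], ![3, 4]] p.1 (Fin.ofNat 2 p.2.val)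

theorem exD_inj : ∀ p q, exD p = exD q → p = q := by decide

theorem exD_K : ∀ p (k : Fin 3), exD p ∉ (![{5}, {6, 7}, {8, 9}] : Fin 3 → Finset (Fin 10)) k := by
  decide

theorem exD_adj : ∀ p y, exGraph.Adj (exD p) y →
    y = exD p ∨ y ∈ (![{5}, {6, 7}, {8, 9}] : Fin 3 → Finset (Fin 10)) p.1 := by decide

theorem tight_exGraph : TightTriple exGraph ![1, 2, 2] := by
  refine ⟨![{5}, {6, 7}, {8, 9}], fun p => {exD p}, by decide, by decide, fun p => ⟨_, rfl⟩,
    fun p q hpq => ?_, fun p k x hx => ?_, fun p x hx y hy => ?_⟩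
  · rw [Set.disjoint_singleton]
    exact fun h => hpq (exD_inj _ _ h)
  · rw [Set.mem_singleton_iff] at hx
    subst hx
    exact exD_K p k
  · rw [Set.mem_singleton_iff] at hx
    subst hx
    exact exD_adj p y hy

/-- If `G` has three tight gadgets of sizes `1, b, c`, then there are `b + c` agents of two kinds
with additive valuations (of one kind if `b = 1` or `c = 1`) such that no connected allocation is
EF1; in particular `G` does not guarantee connected EF1 (outer) allocations for monotone
valuations. This applies to `exGraph`, with sizes `1, 2, 2`. -/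
theorem result :
    (∀ (V : Type) [Fintype V] [DecidableEq V] (G : SimpleGraph V) (b c : ℕ), 1 ≤ b → 1 ≤ c →
      TightTriple G ![1, b, c] →
        ¬ UniversallyGuaranteesMonotone G ∧
        (b = 1 ∨ c = 1 → ¬ UniversallyGuaranteesCA G) ∧
        ∃ u₁ u₂ : Finset V → ℝ, IsAdditive u₁ ∧ IsAdditive u₂ ∧ (b = 1 ∨ c = 1 → u₁ = u₂) ∧
          ∀ A : Fin (b + c) → Finset V, IsAllocation A → IsConnectedAllocation G A →
            ¬ IsEF1 (Fin.append (fun _ : Fin b => u₁) (fun _ : Fin c => u₂)) A) ∧
    TightTriple exGraph ![1, 2, 2] ∧ ¬ UniversallyGuaranteesMonotone exGraph := by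
  refine ⟨fun V _ _ G b c hb hc h => ⟨not_guarantees hb hc h, fun h1 hU => ?_, main hb hc h⟩,
    tight_exGraph, not_guarantees (by norm_num) (by norm_num) tight_exGraph⟩
  obtain ⟨u₁, u₂, h2, h3, he, hA⟩ := main hb hc h
  obtain rfl := he h1
  have happ : Fin.append (fun _ : Fin b => u₁) (fun _ : Fin c => u₁) = fun _ => u₁ := by
    funext i
    refine Fin.addCases (fun i => ?_) (fun i => ?_) i
    · rw [Fin.append_left]
    · rw [Fin.append_right]
  obtain ⟨A, hA1, hA2, hA3⟩ := hU (b + c) (by omega) (fun _ => u₁) ⟨u₁, h2.1, h2.2, fun _ => rfl⟩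
  refine hA A hA1 hA2 ?_
  rw [happ]
  intro i j
  rcases hA3 i j with h | ⟨o, ho, h⟩
  · exact Or.inl h
  · exact Or.inr ⟨o, ho.1, h⟩

end Pool.Agent.Results.MP_7d34d8_co.TightTriples
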